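import Mathlib

set_option autoImplicit false

namespace Pool.Agent.H361R3

open Filter Topology

section abstract

variable {M : Type*} [Ring M] [MetricSpace M]

theorem dist_conj_le (hL : ∀ x y z : M, dist (z * x) (z * y) ≤ dist x y)
    (hR : ∀ x y z : M, dist (x * z) (y * z) ≤ dist x y) (w : Mˣ) (x y : M) :
    dist ((w : M) * x * ((w⁻¹ : Mˣ) : M)) ((w : M) * y * ((w⁻¹ : Mˣ) : M)) ≤ dist x y :=
  (hR _ _ _).trans (hL _ _ _)

/-- the partial products -/
noncomputable def VV (c : ℕ → ℝ → Mˣ) : ℕ → ℝ → Mˣ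
  | 0, _ => 1
  | (N + 1), s => c N (s - N) * VV c N s

variable (c : ℕ → ℝ → Mˣ)

theorem VV_succ (N : ℕ) (s : ℝ) : VV c (N + 1) s = c N (s - N) * VV c N s := rfl

theorem VV_stable (hc0 : ∀ k t, t ≤ 0 → c k t = 1) (N : ℕ) (s : ℝ) (h : s ≤ N) (m : ℕ) :
    VV c (N + m) s = VV c N s := by
  induction m with
  | zero => rfl
  | succ m ih =>
    rw [← add_assoc, VV_succ, ih, hc0, one_mul]
    push_cast
    have : (0 : ℝ) ≤ m := Nat.cast_nonneg m
    linarith

theorem VV_eq (hc0 : ∀ k t, t ≤ 0 → c k t = 1) (N N' : ℕ) (s : ℝ) (h : s ≤ N) (h' : s ≤ N') :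
    VV c N s = VV c N' s := by
  rcases le_total N N' with hle | hle
  · obtain ⟨m, rfl⟩ := Nat.exists_eq_add_of_le hle
    exact (VV_stable c hc0 N s h m).symm
  · obtain ⟨m, rfl⟩ := Nat.exists_eq_add_of_le hle
    exact VV_stable c hc0 N' s h' m

theorem VV_full (hc1 : ∀ k t, 1 ≤ t → c k t = c k 1) (W : ℕ → Mˣ) (hW0 : W 0 = 1)
    (hW : ∀ k, W (k + 1) = c k 1 * W k) (N : ℕ) (s : ℝ) (h : (N : ℝ) ≤ s) : VV c N s = W N := by
  induction N with
  | zero => rw [hW0]; rfl
  | succ N ih =>
    push_cast at h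
    rw [VV_succ, ih (by linarith), hc1 _ _ (by linarith), hW]

theorem VV_continuous [IsTopologicalRing M] (hc : ∀ k, Continuous fun t => (c k t : M)) (N : ℕ) :
    Continuous fun s => (VV c N s : M) := by
  induction N with
  | zero => exact continuous_const
  | succ N ih =>
    simp only [VV_succ, Units.val_mul]
    exact ((hc N).comp (by fun_prop)).mul ih

theorem VV_continuous_inv [IsTopologicalRing M]
    (hc' : ∀ k, Continuous fun t => (((c k t)⁻¹ : Mˣ) : M)) (N : ℕ) :
    Continuous fun s => (((VV c N s)⁻¹ : Mˣ) : M) := by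
  induction N with
  | zero => simpa [VV] using continuous_const
  | succ N ih =>
    simp only [VV_succ, mul_inv_rev, Units.val_mul]
    exact ih.mul ((hc' N).comp (by fun_prop))

/-- The infinite product, evaluated at `s`. -/
noncomputable def WW (s : ℝ) : Mˣ := VV c (⌊s⌋₊ + 1) s

theorem WW_eq (hc0 : ∀ k t, t ≤ 0 → c k t = 1) (N : ℕ) (s : ℝ) (h : s ≤ N) :
    WW c s = VV c N s :=
  VV_eq c hc0 _ _ s (by push_cast; exact (Nat.lt_floor_add_one s).le) h

theorem WW_continuous [IsTopologicalRing M] (hc0 : ∀ k t, t ≤ 0 → c k t = 1)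
    (hc : ∀ k, Continuous fun t => (c k t : M)) : Continuous fun s => (WW c s : M) := by
  rw [continuous_iff_continuousAt]
  intro s
  have h1 : ∀ᶠ s' in 𝓝 s, s' ≤ ((⌊s⌋₊ + 1 : ℕ) : ℝ) :=
    (eventually_lt_nhds (by push_cast; exact Nat.lt_floor_add_one s)).mono fun _ h => h.le
  refine ((VV_continuous c hc (⌊s⌋₊ + 1)).continuousAt).congr ?_
  filter_upwards [h1] with s' hs'
  rw [WW_eq c hc0 _ _ hs']

theorem WW_continuous_inv [IsTopologicalRing M] (hc0 : ∀ k t, t ≤ 0 → c k t = 1)
    (hc' : ∀ k, Continuous fun t => (((c k t)⁻¹ : Mˣ) : M)) :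
    Continuous fun s => (((WW c s)⁻¹ : Mˣ) : M) := by
  rw [continuous_iff_continuousAt]
  intro s
  have h1 : ∀ᶠ s' in 𝓝 s, s' ≤ ((⌊s⌋₊ + 1 : ℕ) : ℝ) :=
    (eventually_lt_nhds (by push_cast; exact Nat.lt_floor_add_one s)).mono fun _ h => h.le
  refine ((VV_continuous_inv c hc' (⌊s⌋₊ + 1)).continuousAt).congr ?_
  filter_upwards [h1] with s' hs'
  rw [WW_eq c hc0 _ _ hs']

theorem WW_zero (hc0 : ∀ k t, t ≤ 0 → c k t = 1) : WW c 0 = 1 := by
  rw [WW_eq c hc0 0 0 (by simp)]; rfl

/-- conjugation -/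
def cj (w : Mˣ) (x : M) : M := (w : M) * x * ((w⁻¹ : Mˣ) : M)

theorem cj_one (x : M) : cj (1 : Mˣ) x = x := by simp [cj]

theorem cj_mul (w v : Mˣ) (x : M) : cj (w * v) x = cj w (cj v x) := by
  simp [cj, mul_assoc]

theorem cj_of_commute (w : Mˣ) (x : M) (h : (w : M) * x = x * w) : cj w x = x := by
  rw [cj, h, mul_assoc, ← Units.val_mul, mul_inv_cancel, Units.val_one, mul_one]

theorem cj_map_mul (w : Mˣ) (x y : M) : cj w (x * y) = cj w x * cj w y := by
  simp only [cj]
  rw [show (w : M) * x * ((w⁻¹ : Mˣ) : M) * ((w : M) * y * ((w⁻¹ : Mˣ) : M)) =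
    (w : M) * x * (((w⁻¹ : Mˣ) : M) * (w : M)) * y * ((w⁻¹ : Mˣ) : M) by simp only [mul_assoc]]
  rw [← Units.val_mul w⁻¹ w, inv_mul_cancel, Units.val_one, mul_one]
  simp only [mul_assoc]

theorem cj_map_one (w : Mˣ) : cj w (1 : M) = 1 := by
  simp [cj]

theorem WW_conj (hc0 : ∀ k t, t ≤ 0 → c k t = 1)
    (hc1 : ∀ k t, 1 ≤ t → c k t = c k 1) (W : ℕ → Mˣ) (hW0 : W 0 = 1)
    (hW : ∀ k, W (k + 1) = c k 1 * W k) (x : M) (n : ℕ)
    (hx : ∀ k, n ≤ k → ∀ t, (c k t : M) * cj (W k) x = cj (W k) x * c k t)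
    (s : ℝ) (hs : (n : ℝ) ≤ s) : cj (WW c s) x = cj (W n) x := by
  have key : ∀ m, cj (W (n + m)) x = cj (W n) x := by
    intro m
    induction m with
    | zero => rfl
    | succ m ih =>
      rw [← add_assoc, hW, cj_mul, cj_of_commute _ _ (hx (n + m) (by omega) 1), ih]
  have h0 : 0 ≤ s := (Nat.cast_nonneg n).trans hs
  have hfl : n ≤ ⌊s⌋₊ := Nat.le_floor hs
  obtain ⟨m, hm⟩ := Nat.exists_eq_add_of_le hfl
  unfold WW
  rw [VV_succ, VV_full c hc1 W hW0 hW _ _ (Nat.floor_le h0), cj_mul,
    cj_of_commute _ _ (hx _ hfl _), hm, key]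

end abstract

/-- the abstract contraction -/
theorem contractible_of_data {M : Type*} [Ring M] [MetricSpace M] [CompleteSpace M]
    [IsTopologicalRing M]
    (hL : ∀ x y z : M, dist (z * x) (z * y) ≤ dist x y)
    (hR : ∀ x y z : M, dist (x * z) (y * z) ≤ dist x y)
    (R : ℕ → Set M) (hRd : ∀ x : M, ∀ ε > 0, ∃ n, ∃ y ∈ R n, dist x y < ε)
    (c : ℕ → ℝ → Mˣ) (hc : ∀ k, Continuous fun t => (c k t : M))
    (hc' : ∀ k, Continuous fun t => (((c k t)⁻¹ : Mˣ) : M))
    (hc0 : ∀ k t, t ≤ 0 → c k t = 1) (hc1 : ∀ k t, 1 ≤ t → c k t = c k 1)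
    (W : ℕ → Mˣ) (hW0 : W 0 = 1) (hW : ∀ k, W (k + 1) = c k 1 * W k)
    (hcomm : ∀ n, ∀ x ∈ R n, ∀ k, n ≤ k → ∀ t,
      (c k t : M) * cj (W k) x = cj (W k) x * c k t)
    (e : ℝ → M) (he : Continuous e) (he0 : e 0 = 0) (he1 : e 1 = 1) (hee : ∀ t, e t * e t = e t)
    (hecomm : ∀ n, ∀ x ∈ R n, ∀ t, e t * cj (W n) x = cj (W n) x * e t) :
    ContractibleSpace {x : M // IsUnit x} := by
  -- the limit homomorphism
  have hlocal : ∀ n, ∀ x ∈ R n, ∀ s : ℝ, (n : ℝ) ≤ s → cj (WW c s) x = cj (W n) x :=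
    fun n x hx s hs => WW_conj c hc0 hc1 W hW0 hW x n (hcomm n x hx) s hs
  have hdist : ∀ s (x y : M), dist (cj (WW c s) x) (cj (WW c s) y) ≤ dist x y :=
    fun s x y => dist_conj_le hL hR _ x y
  have hex : ∀ x : M, ∃ y, Tendsto (fun s : ℝ => cj (WW c s) x) atTop (𝓝 y) := by
    intro x
    refine cauchySeq_tendsto_of_complete ?_
    rw [Metric.cauchySeq_iff]
    intro ε hε
    obtain ⟨n, x', hx', hxx⟩ := hRd x (ε / 2) (by linarith)
    refine ⟨n, fun s hs s' hs' => ?_⟩
    have h1 := hlocal n x' hx' s hs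
    have h2 := hlocal n x' hx' s' hs'
    calc dist (cj (WW c s) x) (cj (WW c s') x)
        ≤ dist (cj (WW c s) x) (cj (WW c s) x') + dist (cj (WW c s) x') (cj (WW c s') x) :=
          dist_triangle _ _ _
      _ = dist (cj (WW c s) x) (cj (WW c s) x') + dist (cj (WW c s') x') (cj (WW c s') x) := by
          rw [h1, h2]
      _ ≤ dist x x' + dist x' x := add_le_add (hdist _ _ _) (hdist _ _ _)
      _ < ε := by rw [dist_comm x' x]; linarith
  choose ρ hρ using hex
  have hρmul : ∀ x y, ρ (x * y) = ρ x * ρ y := by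
    intro x y
    refine tendsto_nhds_unique (hρ (x * y)) ?_
    have := (hρ x).mul (hρ y)
    refine this.congr fun s => ?_
    rw [cj_map_mul]
  have hρ1 : ρ 1 = 1 := by
    refine tendsto_nhds_unique (hρ 1) ?_
    simp only [cj_map_one]
    exact tendsto_const_nhds
  have hρd : ∀ x y, dist (ρ x) (ρ y) ≤ dist x y := by
    intro x y
    exact le_of_tendsto ((hρ x).dist (hρ y)) (Eventually.of_forall fun s => hdist s x y)
  have hρc : Continuous ρ := by
    refine LipschitzWith.continuous (K := 1) ?_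
    refine LipschitzWith.of_dist_le_mul fun x y => ?_
    simpa using hρd x y
  have hρloc : ∀ n, ∀ x ∈ R n, ρ x = cj (W n) x := by
    intro n x hx
    refine tendsto_nhds_unique (hρ x) ?_
    refine tendsto_const_nhds.congr' ?_
    filter_upwards [eventually_ge_atTop (n : ℝ)] with s hs
    rw [hlocal n x hx s hs]
  have hρe : ∀ t x, e t * ρ x = ρ x * e t := by
    intro t x
    have hcl : IsClosed {x : M | e t * ρ x = ρ x * e t} :=
      isClosed_eq (continuous_const.mul hρc) (hρc.mul continuous_const)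
    have hx : x ∈ closure {x : M | e t * ρ x = ρ x * e t} := by
      rw [Metric.mem_closure_iff]
      intro ε hε
      obtain ⟨n, y, hy, hxy⟩ := hRd x ε hε
      refine ⟨y, ?_, hxy⟩
      change e t * ρ y = ρ y * e t
      rw [hρloc n y hy]
      exact hecomm n y hy t
    exact hcl.closure_subset hx
  have hρu : ∀ u : M, IsUnit u → IsUnit (ρ u) := by
    rintro _ ⟨u, rfl⟩
    refine ⟨⟨ρ u, ρ ((u⁻¹ : Mˣ) : M), ?_, ?_⟩, rfl⟩
    · rw [← hρmul, ← Units.val_mul, mul_inv_cancel, Units.val_one, hρ1]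
    · rw [← hρmul, ← Units.val_mul, inv_mul_cancel, Units.val_one, hρ1]
  have hWc := WW_continuous c hc0 hc
  have hWc' := WW_continuous_inv c hc0 hc'
  -- the space
  let A := {x : M // IsUnit x}
  let one : A := ⟨1, isUnit_one⟩
  let ρA : C(A, A) := ⟨fun u => ⟨ρ u.1, hρu u.1 u.2⟩, by
    exact Continuous.subtype_mk (hρc.comp continuous_subtype_val) _⟩
  -- the first homotopy
  let h1 : unitInterval × A → M := fun p =>
    if (p.1 : ℝ) < 1 then cj (WW c ((p.1 : ℝ) / (1 - (p.1 : ℝ)))) p.2.1 else ρ p.2.1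
  have h1u : ∀ p, IsUnit (h1 p) := by
    intro p
    simp only [h1]
    split_ifs with h
    · exact ((WW c _).isUnit.mul p.2.2).mul ((WW c _)⁻¹).isUnit
    · exact hρu _ p.2.2
  have h1c : Continuous h1 := by
    rw [continuous_iff_continuousAt]
    rintro ⟨t, u⟩
    by_cases ht : (t : ℝ) < 1
    · have hev : ∀ᶠ p : unitInterval × A in 𝓝 (t, u), (p.1 : ℝ) < 1 := by
        have : Continuous fun p : unitInterval × A => (p.1 : ℝ) :=
          continuous_subtype_val.comp continuous_fst
        exact this.continuousAt.eventually (eventually_lt_nhds ht)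
      have hg : ContinuousAt (fun p : unitInterval × A =>
          cj (WW c ((p.1 : ℝ) / (1 - (p.1 : ℝ)))) p.2.1) (t, u) := by
        have hs : ContinuousAt (fun p : unitInterval × A => (p.1 : ℝ) / (1 - (p.1 : ℝ))) (t, u) := by
          refine ContinuousAt.div ?_ ?_ ?_
          · exact (continuous_subtype_val.comp continuous_fst).continuousAt
          · exact (continuous_const.sub (continuous_subtype_val.comp continuous_fst)).continuousAt
          · simp only; linarith
        have h2 : ContinuousAt (fun p : unitInterval × A => p.2.1) (t, u) :=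
          (continuous_subtype_val.comp continuous_snd).continuousAt
        exact ((hWc.continuousAt.comp hs).mul h2).mul (hWc'.continuousAt.comp hs)
      refine hg.congr ?_
      filter_upwards [hev] with p hp
      simp only [h1, if_pos hp]
    · have ht1 : (t : ℝ) = 1 := le_antisymm t.2.2 (not_lt.1 ht)
      rw [Metric.continuousAt_iff']
      intro ε hε
      obtain ⟨n, y, hy, huy⟩ := hRd u.1 (ε / 3) (by linarith)
      have hev1 : ∀ᶠ p : unitInterval × A in 𝓝 (t, u), dist p.2.1 u.1 < ε / 3 := by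
        have h2 : Continuous fun p : unitInterval × A => p.2.1 :=
          continuous_subtype_val.comp continuous_snd
        exact (Metric.continuousAt_iff'.1 h2.continuousAt) (ε / 3) (by linarith)
      have hev2 : ∀ᶠ p : unitInterval × A in 𝓝 (t, u), ((n : ℝ) + 1) * (1 - (p.1 : ℝ)) < 1 := by
        have h2 : Continuous fun p : unitInterval × A => ((n : ℝ) + 1) * (1 - (p.1 : ℝ)) :=
          continuous_const.mul (continuous_const.sub (continuous_subtype_val.comp continuous_fst))
        refine h2.continuousAt.eventually (eventually_lt_nhds ?_)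
        simp only [ht1]; norm_num
      filter_upwards [hev1, hev2] with p hp1 hp2
      have hval : h1 (t, u) = ρ u.1 := by simp only [h1, if_neg ht]
      rw [hval]
      -- both cases: a map `θ` contracting distances with `θ y = ρ y`
      have main : ∀ θ : M → M, (∀ a b, dist (θ a) (θ b) ≤ dist a b) → θ y = ρ y →
          dist (θ p.2.1) (ρ u.1) < ε := by
        intro θ hθ hθy
        calc dist (θ p.2.1) (ρ u.1) ≤ dist (θ p.2.1) (θ y) + dist (θ y) (ρ u.1) :=
              dist_triangle _ _ _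
          _ ≤ dist p.2.1 y + dist y u.1 := by
              rw [hθy]; exact add_le_add (by rw [← hθy]; exact hθ _ _) (hρd _ _)
          _ ≤ (dist p.2.1 u.1 + dist u.1 y) + dist y u.1 :=
              add_le_add (dist_triangle _ _ _) le_rfl
          _ < ε := by rw [dist_comm y u.1]; linarith
      simp only [h1]
      split_ifs with hlt
      · refine main _ (hdist _) ?_
        rw [hρloc n y hy]
        refine hlocal n y hy _ ?_
        rw [le_div_iff₀ (by linarith)]
        nlinarith
      · exact main ρ hρd rfl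
  let H1 : ContinuousMap.Homotopy (ContinuousMap.id A) ρA :=
    { toFun := fun p => ⟨h1 p, h1u p⟩
      continuous_toFun := h1c.subtype_mk _
      map_zero_left := by
        intro u
        apply Subtype.ext
        simp only [h1]
        rw [if_pos (by simp)]
        simp [WW_zero c hc0, cj_one]
      map_one_left := by
        intro u
        apply Subtype.ext
        simp only [h1]
        rw [if_neg (by simp)]
        rfl }
  -- the second homotopy
  let h2 : unitInterval × A → M := fun p =>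
    ρ p.2.1 * e (1 - (p.1 : ℝ)) + (1 - e (1 - (p.1 : ℝ)))
  have h2u : ∀ p, IsUnit (h2 p) := by
    rintro ⟨t, u⟩
    obtain ⟨v, hv⟩ := u.2
    have hprod : ∀ a b : M, a * b = 1 →
        (ρ a * e (1 - (t : ℝ)) + (1 - e (1 - (t : ℝ)))) *
          (ρ b * e (1 - (t : ℝ)) + (1 - e (1 - (t : ℝ)))) = 1 := by
      intro a b hab
      set E := e (1 - (t : ℝ)) with hE
      have e1 : E * ρ b = ρ b * E := hρe _ _
      have e2 : E * E = E := hee _
      have e3 : ρ a * ρ b = 1 := by rw [← hρmul, hab, hρ1]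
      have e4 : E * (1 - E) = 0 := by rw [mul_sub, mul_one, e2, sub_self]
      have e5 : (1 - E) * E = 0 := by rw [sub_mul, one_mul, e2, sub_self]
      have e6 : (1 - E) * (1 - E) = 1 - E := by rw [mul_sub, mul_one, e5, sub_zero]
      calc (ρ a * E + (1 - E)) * (ρ b * E + (1 - E))
          = ρ a * (E * ρ b) * E + ρ a * (E * (1 - E)) + (1 - E) * (ρ b * E)
              + (1 - E) * (1 - E) := by noncomm_ring
        _ = ρ a * (ρ b * E) * E + ρ a * 0 + (1 - E) * (E * ρ b) + (1 - E) := by
            rw [e1, e4, e6]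
        _ = (ρ a * ρ b) * (E * E) + ((1 - E) * E) * ρ b + (1 - E) := by noncomm_ring
        _ = 1 := by rw [e3, e2, e5]; noncomm_ring
    refine ⟨⟨h2 (t, u), ρ ((v⁻¹ : Mˣ) : M) * e (1 - (t : ℝ)) + (1 - e (1 - (t : ℝ))), ?_, ?_⟩, rfl⟩
    · refine hprod _ _ ?_
      simp only [← hv]
      rw [← Units.val_mul, mul_inv_cancel, Units.val_one]
    · refine hprod _ _ ?_
      simp only [← hv]
      rw [← Units.val_mul, inv_mul_cancel, Units.val_one]
  have h2c : Continuous h2 := by
    have hE : Continuous fun p : unitInterval × A => e (1 - (p.1 : ℝ)) :=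
      he.comp (continuous_const.sub (continuous_subtype_val.comp continuous_fst))
    exact ((hρc.comp (continuous_subtype_val.comp continuous_snd)).mul hE).add
      (continuous_const.sub hE)
  let H2 : ContinuousMap.Homotopy ρA (ContinuousMap.const A one) :=
    { toFun := fun p => ⟨h2 p, h2u p⟩
      continuous_toFun := h2c.subtype_mk _
      map_zero_left := by
        intro u
        apply Subtype.ext
        simp only [h2]
        simp [he1, ρA]
      map_one_left := by
        intro u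
        apply Subtype.ext
        simp only [h2]
        simp [he0, one] }
  rw [contractible_iff_id_nullhomotopic]
  exact ⟨one, ⟨H1.trans H2⟩⟩

end Pool.Agent.H361R3
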