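import Pool.Agent.H361R3.Model
import Pool.Agent.H361R3.Homotopy

set_option autoImplicit false

namespace Pool.Agent.H361R3

open Matrix Filter Topology

/-- the numerical value of the first `m` digits -/
def val : ℕ → X → ℕ
  | 0, _ => 0
  | (m + 1), ω => 2 * val m ω + (ω m : ℕ)

theorem val_lt (m : ℕ) (ω : X) : val m ω < 2 ^ m := by
  induction m with
  | zero => simp [val]
  | succ m ih =>
    have := (ω m).isLt
    simp only [val, pow_succ]
    omega

theorem val_congr (m : ℕ) {ω ω' : X} (h : ∀ i < m, ω i = ω' i) : val m ω = val m ω' := by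
  induction m with
  | zero => rfl
  | succ m ih =>
    simp only [val]
    rw [ih (fun i hi => h i (by omega)), h m (by omega)]

theorem val_inj (m : ℕ) {ω ω' : X} (h : val m ω = val m ω') : ∀ i < m, ω i = ω' i := by
  induction m with
  | zero => intro i hi; omega
  | succ m ih =>
    simp only [val] at h
    have h1 := (ω m).isLt
    have h2 := (ω' m).isLt
    intro i hi
    rcases Nat.lt_succ_iff_lt_or_eq.1 hi with hi | rfl
    · exact ih (by omega) i hi
    · apply Fin.ext; omega

/-- the indicator function -/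
noncomputable def gg (K : Type*) [Field K] (p : ℕ → ℕ) (m q : ℕ) : X → K := fun ω =>
  if val m (fun i => ω (p i)) < q then 1 else 0

section
variable {K : Type*} [Field K]

theorem gg_congr (p : ℕ → ℕ) (m q : ℕ) {ω ω' : X} (h : ∀ i < m, ω (p i) = ω' (p i)) :
    gg K p m q ω = gg K p m q ω' := by
  unfold gg
  rw [val_congr m (ω := fun i => ω (p i)) (ω' := fun i => ω' (p i)) h]

theorem gg_sq (p : ℕ → ℕ) (m q : ℕ) : gg K p m q * gg K p m q = gg K p m q := by
  funext ω
  simp only [gg, Pi.mul_apply]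
  split_ifs <;> simp

theorem gg_zero (p : ℕ → ℕ) (m : ℕ) : gg K p m 0 = 0 := by
  funext ω
  simp [gg]

theorem gg_full (p : ℕ → ℕ) (m q : ℕ) (h : 2 ^ m ≤ q) : gg K p m q = 1 := by
  funext ω
  simp only [gg, Pi.one_apply]
  rw [if_pos ((val_lt _ _).trans_le h)]

theorem gg_double (p : ℕ → ℕ) (m q : ℕ) : gg K p (m + 1) (2 * q) = gg K p m q := by
  funext ω
  have := (ω (p m)).isLt
  simp only [gg, val]
  congr 1
  simp only [eq_iff_iff]
  omega

end

theorem count_le (p : ℕ → ℕ) (hp : Function.Injective p) (m L : ℕ) (hL : ∀ i < m, p i < L)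
    (q q' : ℕ) :
    (Finset.univ.filter fun α : I L => q ≤ val m (fun i => glue L α 0 (p i)) ∧
      val m (fun i => glue L α 0 (p i)) < q').card ≤ 2 ^ (L - m) * (q' - q) := by
  classical
  let P : Finset (Fin L) := Finset.univ.image (fun i : Fin m => (⟨p i, hL i i.2⟩ : Fin L))
  have hPc : P.card = m := by
    rw [Finset.card_image_of_injective]
    · simp
    · intro i i' h
      exact Fin.ext (hp (Fin.mk.inj_iff.1 h))
  let F : I L → ({i : Fin L // i ∉ P} → Fin 2) × ℕ := fun α =>
    (fun i => α i.1, val m (fun i => glue L α 0 (p i)))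
  have hF : Function.Injective F := by
    intro α β h
    have h1 := congrArg Prod.fst h
    have h2 := congrArg Prod.snd h
    simp only [F] at h1 h2
    funext i
    by_cases hi : i ∈ P
    · obtain ⟨l, -, rfl⟩ := Finset.mem_image.1 hi
      have := val_inj m h2 l l.2
      change glue L α 0 (p l) = glue L β 0 (p l) at this
      rwa [glue_lt _ _ (hL l l.2), glue_lt _ _ (hL l l.2)] at this
    · exact congrFun h1 ⟨i, hi⟩
  have hcard : Fintype.card {i : Fin L // i ∉ P} = L - m := by
    rw [Fintype.card_subtype_compl, Fintype.card_fin, Fintype.card_coe, hPc]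
  calc _ ≤ ((Finset.univ : Finset ({i : Fin L // i ∉ P} → Fin 2)) ×ˢ Finset.Ico q q').card := by
        refine Finset.card_le_card_of_injOn F ?_ hF.injOn
        intro α hα
        simp only [Finset.coe_filter, Finset.mem_univ, true_and, Set.mem_ofPred_eq] at hα
        simp only [Finset.coe_product, Finset.coe_univ, Finset.coe_Ico, Set.mem_prod, Set.mem_univ,
          true_and, Set.mem_Ico, F]
        exact hα
    _ = 2 ^ (L - m) * (q' - q) := by
        rw [Finset.card_product, Finset.card_univ, Fintype.card_fun, hcard, Nat.card_Ico]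
        simp

section data

variable {K : Type*} [Field K] {M : Type*} [Ring M] [MetricSpace M]

/-- the data of a completion -/
structure IsData (j : ∀ n, Matrix (I n) (I n) K →+* M) : Prop where
  dist_j : ∀ n x y, dist (j n x) (j n y) = ((x - y).rank : ℝ) / 2 ^ n
  j_up : ∀ n x, j (n + 1) (up n x) = j n x
  dense : ∀ x : M, ∀ ε > 0, ∃ n, ∃ a, dist x (j n a) < ε

variable (j : ∀ n, Matrix (I n) (I n) K →+* M)

/-- operators of finite level -/
def Loc (T : Module.End K (X → K)) : Prop := ∃ n, ∃ a : Matrix (I n) (I n) K, phi n a = T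

/-- the map from operators of finite level to the completion -/
noncomputable def Ph (T : Module.End K (X → K)) : M :=
  open Classical in
  if h : ∃ p : Σ n, Matrix (I n) (I n) K, phi p.1 p.2 = T then j h.choose.1 h.choose.2 else 0

variable {j}

theorem IsData.lift (hj : IsData j) (n m : ℕ) (h : n ≤ m) (a : Matrix (I n) (I n) K) :
    ∃ b : Matrix (I m) (I m) K, phi m b = phi n a ∧ j m b = j n a := by
  induction m, h using Nat.le_induction with
  | base => exact ⟨a, rfl, rfl⟩
  | succ m _ ih =>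
    obtain ⟨b, h1, h2⟩ := ih
    exact ⟨up m b, by rw [phi_up, h1], by rw [hj.j_up, h2]⟩

theorem IsData.well (hj : IsData j) {n m : ℕ} {a : Matrix (I n) (I n) K}
    {b : Matrix (I m) (I m) K} (h : phi n a = phi m b) : j n a = j m b := by
  obtain ⟨a', h1, h2⟩ := hj.lift n (max n m) (le_max_left _ _) a
  obtain ⟨b', h3, h4⟩ := hj.lift m (max n m) (le_max_right _ _) b
  have : a' = b' := phi_inj _ (by rw [h1, h3, h])
  rw [← h2, ← h4, this]

theorem IsData.Ph_phi (hj : IsData j) (n : ℕ) (a : Matrix (I n) (I n) K) :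
    Ph j (phi n a) = j n a := by
  have h : ∃ p : Σ n, Matrix (I n) (I n) K, phi p.1 p.2 = phi n a := ⟨⟨n, a⟩, rfl⟩
  unfold Ph
  rw [dif_pos h]
  exact hj.well h.choose_spec

theorem IsData.common (hj : IsData j) {T T' : Module.End K (X → K)} (h : Loc T) (h' : Loc T') :
    ∃ n, ∃ a a' : Matrix (I n) (I n) K, phi n a = T ∧ phi n a' = T' := by
  obtain ⟨n, a, rfl⟩ := h
  obtain ⟨m, b, rfl⟩ := h'
  obtain ⟨a', h1, -⟩ := hj.lift n (max n m) (le_max_left _ _) a
  obtain ⟨b', h3, -⟩ := hj.lift m (max n m) (le_max_right _ _) b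
  exact ⟨_, a', b', h1, h3⟩

theorem IsData.Loc_mul (hj : IsData j) {T T' : Module.End K (X → K)} (h : Loc T) (h' : Loc T') :
    Loc (T * T') := by
  obtain ⟨n, a, a', rfl, rfl⟩ := hj.common h h'
  exact ⟨n, a * a', phi_mul _ _ _⟩

theorem IsData.Ph_mul (hj : IsData j) {T T' : Module.End K (X → K)} (h : Loc T) (h' : Loc T') :
    Ph j (T * T') = Ph j T * Ph j T' := by
  obtain ⟨n, a, a', rfl, rfl⟩ := hj.common h h'
  rw [← phi_mul, hj.Ph_phi, hj.Ph_phi, hj.Ph_phi, map_mul]

theorem IsData.Ph_one (hj : IsData j) : Ph j (1 : Module.End K (X → K)) = 1 := by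
  rw [← phi_one 0, hj.Ph_phi, map_one]

theorem IsData.hL [IsTopologicalRing M] (hj : IsData j) (x y z : M) :
    dist (z * x) (z * y) ≤ dist x y := by
  have hd : DenseRange (fun p : Σ n, Matrix (I n) (I n) K => j p.1 p.2) := by
    intro x
    rw [Metric.mem_closure_range_iff]
    intro ε hε
    obtain ⟨n, a, h⟩ := hj.dense x ε hε
    exact ⟨⟨n, a⟩, h⟩
  refine isClosed_property3 (p := fun x y z => dist (z * x) (z * y) ≤ dist x y) hd ?_ ?_ x y z
  · exact isClosed_le (by fun_prop) (by fun_prop)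
  · rintro ⟨n1, a1⟩ ⟨n2, a2⟩ ⟨n3, a3⟩
    obtain ⟨b1, -, h1⟩ := hj.lift n1 (max (max n1 n2) n3) (by simp) a1
    obtain ⟨b2, -, h2⟩ := hj.lift n2 (max (max n1 n2) n3) (by simp) a2
    obtain ⟨b3, -, h3⟩ := hj.lift n3 (max (max n1 n2) n3) (by simp) a3
    simp only
    rw [← h1, ← h2, ← h3, ← map_mul, ← map_mul, hj.dist_j, hj.dist_j, ← mul_sub]
    gcongr
    exact Matrix.rank_mul_le_right _ _

theorem IsData.hR [IsTopologicalRing M] (hj : IsData j) (x y z : M) :
    dist (x * z) (y * z) ≤ dist x y := by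
  have hd : DenseRange (fun p : Σ n, Matrix (I n) (I n) K => j p.1 p.2) := by
    intro x
    rw [Metric.mem_closure_range_iff]
    intro ε hε
    obtain ⟨n, a, h⟩ := hj.dense x ε hε
    exact ⟨⟨n, a⟩, h⟩
  refine isClosed_property3 (p := fun x y z => dist (x * z) (y * z) ≤ dist x y) hd ?_ ?_ x y z
  · exact isClosed_le (by fun_prop) (by fun_prop)
  · rintro ⟨n1, a1⟩ ⟨n2, a2⟩ ⟨n3, a3⟩
    obtain ⟨b1, -, h1⟩ := hj.lift n1 (max (max n1 n2) n3) (by simp) a1
    obtain ⟨b2, -, h2⟩ := hj.lift n2 (max (max n1 n2) n3) (by simp) a2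
    obtain ⟨b3, -, h3⟩ := hj.lift n3 (max (max n1 n2) n3) (by simp) a3
    simp only
    rw [← h1, ← h2, ← h3, ← map_mul, ← map_mul, hj.dist_j, hj.dist_j, ← sub_mul]
    gcongr
    exact Matrix.rank_mul_le_left _ _

/-! ### the idempotents -/

theorem Loc_gg (p : ℕ → ℕ) (m q : ℕ) : Loc (DD (gg K p m q)) := by
  obtain ⟨L, hL⟩ : ∃ L, ∀ i < m, p i < L :=
    ⟨(Finset.range m).sup p + 1, fun i hi =>
      Nat.lt_succ_of_le (Finset.le_sup (f := p) (Finset.mem_range.2 hi))⟩
  exact ⟨L, _, (DD_phi L _ fun ω ω' h => gg_congr p m q fun i hi => h _ (hL i hi)).symm⟩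

theorem IsData.dist_gg (hj : IsData j) (p : ℕ → ℕ) (hp : Function.Injective p) (m q q' : ℕ)
    (hq : q ≤ q') :
    dist (Ph j (DD (gg K p m q))) (Ph j (DD (gg K p m q'))) ≤ ((q' : ℝ) - q) / 2 ^ m := by
  classical
  obtain ⟨L, hL⟩ : ∃ L, ∀ i < m, p i < L :=
    ⟨(Finset.range m).sup p + 1, fun i hi =>
      Nat.lt_succ_of_le (Finset.le_sup (f := p) (Finset.mem_range.2 hi))⟩
  have hmL : m ≤ L := by
    have h1 : ((Finset.range m).image p).card = m := by
      rw [Finset.card_image_of_injective _ hp, Finset.card_range]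
    have h2 : (Finset.range m).image p ⊆ Finset.range L := by
      intro x hx
      obtain ⟨i, hi, rfl⟩ := Finset.mem_image.1 hx
      exact Finset.mem_range.2 (hL i (Finset.mem_range.1 hi))
    have h3 := Finset.card_le_card h2
    rw [h1, Finset.card_range] at h3
    exact h3
  rw [DD_phi L (gg K p m q) fun ω ω' h => gg_congr p m q fun i hi => h _ (hL i hi),
    DD_phi L (gg K p m q') fun ω ω' h => gg_congr p m q' fun i hi => h _ (hL i hi),
    hj.Ph_phi, hj.Ph_phi, hj.dist_j, Matrix.diagonal_sub, Matrix.rank_diagonal,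
    Fintype.card_subtype]
  have h1 : (Finset.univ.filter fun α : I L =>
      gg K p m q (glue L α 0) - gg K p m q' (glue L α 0) ≠ 0) ⊆
      (Finset.univ.filter fun α : I L => q ≤ val m (fun i => glue L α 0 (p i)) ∧
      val m (fun i => glue L α 0 (p i)) < q') := by
    intro α hα
    rw [Finset.mem_filter] at hα ⊢
    refine ⟨Finset.mem_univ _, ?_⟩
    by_contra hc
    refine hα.2 ?_
    simp only [gg]
    rw [not_and_or, not_le, not_lt] at hc
    rcases hc with hc | hc
    · rw [if_pos hc, if_pos (hc.trans_le hq), sub_self]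
    · rw [if_neg (not_lt.2 (hq.trans hc)), if_neg (not_lt.2 hc), sub_self]
  have h2 := (Finset.card_le_card h1).trans (count_le p hp m L hL q q')
  have h3 : (((Finset.univ.filter fun α : I L =>
      gg K p m q (glue L α 0) - gg K p m q' (glue L α 0) ≠ 0).card : ℕ) : ℝ) ≤
      2 ^ (L - m) * ((q' : ℝ) - q) := by
    have := (Nat.cast_le (α := ℝ)).2 h2
    rw [Nat.cast_mul, Nat.cast_sub hq] at this
    push_cast at this
    exact this
  rw [div_le_div_iff₀ (by positivity) (by positivity)]
  calc _ ≤ 2 ^ (L - m) * ((q' : ℝ) - q) * 2 ^ m := by gcongr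
    _ = ((q' : ℝ) - q) * 2 ^ L := by
      have : (2 : ℝ) ^ L = 2 ^ (L - m) * 2 ^ m := by rw [← pow_add]; congr 1; omega
      rw [this]; ring

end data

end Pool.Agent.H361R3
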