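import Pool.Agent.H361R3.Path

set_option autoImplicit false

namespace Pool.Agent.H361R3

open Matrix Filter Topology

/-- `Fin (2 ^ n) ⊕ Fin (2 ^ n) ≃ Fin (2 ^ (n + 1))`, first block then second block -/
def blockEquiv (n : ℕ) : Fin (2 ^ n) ⊕ Fin (2 ^ n) ≃ Fin (2 ^ (n + 1)) :=
  finSumFinEquiv.trans (finCongr (by rw [pow_succ, mul_two]))

/-- The diagonal doubling `x ↦ diag(x, x)`. -/
def double {K : Type*} [Zero K] (n : ℕ) (x : Matrix (Fin (2 ^ n)) (Fin (2 ^ n)) K) :
    Matrix (Fin (2 ^ (n + 1))) (Fin (2 ^ (n + 1))) K :=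
  Matrix.reindex (blockEquiv n) (blockEquiv n) (Matrix.fromBlocks x 0 0 x)

/-- binary expansion -/
def eI (n : ℕ) : I n ≃ Fin (2 ^ n) := finFunctionFinEquiv

theorem eI_succ (n : ℕ) (α : I (n + 1)) : eI (n + 1) α = blockEquiv n
    (if α (Fin.last n) = 0 then Sum.inl (eI n (fun i => α i.castSucc))
      else Sum.inr (eI n (fun i => α i.castSucc))) := by
  apply Fin.ext
  have h1 : ((eI (n + 1) α : Fin (2 ^ (n + 1))) : ℕ) =
      ((eI n (fun i => α i.castSucc) : Fin (2 ^ n)) : ℕ) + (α (Fin.last n) : ℕ) * 2 ^ n := by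
    unfold eI
    rw [finFunctionFinEquiv_apply, finFunctionFinEquiv_apply, Fin.sum_univ_castSucc]
    rfl
  rw [h1]
  split_ifs with h
  · rw [h]
    simp [blockEquiv]
  · have h2 : α (Fin.last n) = 1 := by
      have := (α (Fin.last n)).isLt
      apply Fin.ext
      have h3 : ((α (Fin.last n)) : ℕ) ≠ 0 := fun h0 => h (Fin.ext h0)
      simp only [Fin.val_one]
      omega
    rw [h2]
    simp [blockEquiv]

theorem double_reindex {K : Type*} [Field K] (n : ℕ) (a : Matrix (I n) (I n) K) :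
    double n (Matrix.reindex (eI n) (eI n) a) =
      Matrix.reindex (eI (n + 1)) (eI (n + 1)) (up n a) := by
  ext x y
  obtain ⟨α, rfl⟩ := (eI (n + 1)).surjective x
  obtain ⟨β, rfl⟩ := (eI (n + 1)).surjective y
  change Matrix.fromBlocks (a.submatrix (eI n).symm (eI n).symm) 0 0
    (a.submatrix (eI n).symm (eI n).symm) ((blockEquiv n).symm (eI (n + 1) α))
      ((blockEquiv n).symm (eI (n + 1) β)) =
    up n a ((eI (n + 1)).symm (eI (n + 1) α)) ((eI (n + 1)).symm (eI (n + 1) β))
  rw [Equiv.symm_apply_apply, Equiv.symm_apply_apply, eI_succ, eI_succ, Equiv.symm_apply_apply,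
    Equiv.symm_apply_apply]
  have key : ∀ z : Fin 2, z ≠ 0 → z = 1 := by decide
  simp only [up, Matrix.of_apply]
  by_cases h1 : α (Fin.last n) = 0
  · by_cases h2 : β (Fin.last n) = 0
    · rw [if_pos h1, if_pos h2, if_pos (h1.trans h2.symm)]
      simp
    · rw [if_pos h1, if_neg h2, if_neg (fun h => h2 (h.symm.trans h1))]
      simp
  · by_cases h2 : β (Fin.last n) = 0
    · rw [if_neg h1, if_pos h2, if_neg (fun h => h1 (h.trans h2))]
      simp
    · rw [if_neg h1, if_neg h2, if_pos ((key _ h1).trans (key _ h2).symm)]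
      simp

theorem rank_fromBlocks_diag {K : Type*} [Field K] {m : Type*} [Fintype m] [DecidableEq m]
    (A D : Matrix m m K) : (Matrix.fromBlocks A 0 0 D).rank = A.rank + D.rank := by
  let e := LinearEquiv.sumArrowLequivProdArrow m m K K
  have h1 : (Matrix.fromBlocks A 0 0 D).mulVecLin =
      (e.symm.toLinearMap ∘ₗ (A.mulVecLin.prodMap D.mulVecLin)) ∘ₗ e.toLinearMap := by
    apply LinearMap.ext
    intro v
    apply e.injective
    simp only [LinearMap.comp_apply, LinearEquiv.coe_coe, LinearEquiv.apply_symm_apply]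
    ext i
    · simp [e, Matrix.fromBlocks_mulVec]
      rfl
    · simp [e, Matrix.fromBlocks_mulVec]
      rfl
  rw [Matrix.rank, Matrix.rank, Matrix.rank, h1, LinearMap.range_comp_of_range_eq_top _ e.range,
    LinearMap.range_comp, LinearEquiv.finrank_map_eq e.symm, LinearMap.range_prodMap]
  let f : (A.mulVecLin.range.prod D.mulVecLin.range) ≃ₗ[K]
      A.mulVecLin.range × D.mulVecLin.range :=
    { toFun := fun x => (⟨x.1.1, x.2.1⟩, ⟨x.1.2, x.2.2⟩)
      map_add' := fun _ _ => rfl
      map_smul' := fun _ _ => rfl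
      invFun := fun x => ⟨(x.1.1, x.2.1), ⟨x.1.2, x.2.2⟩⟩
      left_inv := fun _ => rfl
      right_inv := fun _ => rfl }
  rw [f.finrank_eq, Module.finrank_prod]

theorem rank_up {K : Type*} [Field K] (n : ℕ) (a : Matrix (I n) (I n) K) :
    (up n a).rank = 2 * a.rank := by
  rw [← Matrix.rank_reindex (eI (n + 1)) (eI (n + 1)) (up n a), ← double_reindex, double,
    Matrix.rank_reindex, rank_fromBlocks_diag, Matrix.rank_reindex]
  ring

/-! ### existence of the completion -/

section exist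

theorem lift_rank {K : Type*} [Field K] (n m : ℕ) (h : n ≤ m) (a : Matrix (I n) (I n) K) :
    ∃ b : Matrix (I m) (I m) K, phi m b = phi n a ∧ (b.rank : ℝ) / 2 ^ m = (a.rank : ℝ) / 2 ^ n := by
  induction m, h using Nat.le_induction with
  | base => exact ⟨a, rfl, rfl⟩
  | succ m _ ih =>
    obtain ⟨b, h1, h2⟩ := ih
    refine ⟨up m b, by rw [phi_up, h1], ?_⟩
    rw [rank_up, ← h2, pow_succ]
    push_cast
    field_simp

theorem common_level {K : Type*} [Field K] {T T' : Module.End K (X → K)} (h : Loc T)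
    (h' : Loc T') : ∃ n, ∃ a a' : Matrix (I n) (I n) K, phi n a = T ∧ phi n a' = T' := by
  obtain ⟨n, a, rfl⟩ := h
  obtain ⟨m, b, rfl⟩ := h'
  obtain ⟨a', h1, -⟩ := lift_rank n (max n m) (le_max_left _ _) a
  obtain ⟨b', h3, -⟩ := lift_rank m (max n m) (le_max_right _ _) b
  exact ⟨_, a', b', h1, h3⟩

variable (K : Type*) [Field K]

/-- `phi` as a ring homomorphism -/
noncomputable def phiR (n : ℕ) : Matrix (I n) (I n) K →+* Module.End K (X → K) where
  toFun := phi n
  map_one' := phi_one n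
  map_mul' := phi_mul n
  map_zero' := by
    ext f ω
    simp [phi_apply]
  map_add' := phi_add n

/-- the union of the matrix algebras -/
def US : Subring (Module.End K (X → K)) where
  carrier := {T | Loc T}
  mul_mem' := by
    intro a b ha hb
    obtain ⟨n, x, y, rfl, rfl⟩ := common_level ha hb
    exact ⟨n, x * y, phi_mul _ _ _⟩
  one_mem' := ⟨0, 1, phi_one 0⟩
  add_mem' := by
    intro a b ha hb
    obtain ⟨n, x, y, rfl, rfl⟩ := common_level ha hb
    exact ⟨n, x + y, phi_add _ _ _⟩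
  zero_mem' := ⟨0, 0, map_zero (phiR K 0)⟩
  neg_mem' := by
    rintro _ ⟨n, x, rfl⟩
    exact ⟨n, -x, map_neg (phiR K n) x⟩

variable {K}

/-- the normalised rank -/
noncomputable def nrm (T : Module.End K (X → K)) : ℝ :=
  open Classical in
  if h : ∃ p : Σ n, Matrix (I n) (I n) K, phi p.1 p.2 = T then
    (h.choose.2.rank : ℝ) / 2 ^ h.choose.1 else 0

theorem rank_well {n m : ℕ} {a : Matrix (I n) (I n) K} {b : Matrix (I m) (I m) K}
    (h : phi n a = phi m b) : (a.rank : ℝ) / 2 ^ n = (b.rank : ℝ) / 2 ^ m := by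
  obtain ⟨a', h1, h2⟩ := lift_rank n (max n m) (le_max_left _ _) a
  obtain ⟨b', h3, h4⟩ := lift_rank m (max n m) (le_max_right _ _) b
  have : a' = b' := phi_inj _ (by rw [h1, h3, h])
  rw [← h2, ← h4, this]

theorem nrm_phi (n : ℕ) (a : Matrix (I n) (I n) K) : nrm (phi n a) = (a.rank : ℝ) / 2 ^ n := by
  have h : ∃ p : Σ n, Matrix (I n) (I n) K, phi p.1 p.2 = phi n a := ⟨⟨n, a⟩, rfl⟩
  unfold nrm
  rw [dif_pos h]
  exact rank_well h.choose_spec

theorem rank_add_le' {m : Type*} [Fintype m] [DecidableEq m] (A B : Matrix m m K) :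
    (A + B).rank ≤ A.rank + B.rank := by
  rw [Matrix.rank, Matrix.rank, Matrix.rank, Matrix.mulVecLin_add]
  refine le_trans (Submodule.finrank_mono ?_) (Submodule.finrank_add_le_finrank_add_finrank _ _)
  rintro _ ⟨v, rfl⟩
  exact Submodule.add_mem_sup ⟨v, rfl⟩ ⟨v, rfl⟩

theorem rank_neg' {m : Type*} [Fintype m] [DecidableEq m] (A : Matrix m m K) :
    (-A).rank = A.rank := by
  have h1 : ∀ A : Matrix m m K, (-A).rank ≤ A.rank := by
    intro A
    have := Matrix.rank_mul_le_right (-1 : Matrix m m K) A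
    rwa [neg_mul, one_mul] at this
  refine le_antisymm (h1 A) ?_
  have := h1 (-A)
  rwa [neg_neg] at this

theorem rank_eq_zero' {m : Type*} [Fintype m] [DecidableEq m] (A : Matrix m m K)
    (h : A.rank = 0) : A = 0 := by
  rw [Matrix.rank, Submodule.finrank_eq_zero, LinearMap.range_eq_bot] at h
  ext i l
  have := congrFun (LinearMap.congr_fun h (Pi.single l 1)) i
  simpa using this

/-- the rank norm on the union -/
noncomputable def rankNorm (K : Type*) [Field K] : AddGroupNorm (US K) where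
  toFun T := nrm T.1
  map_zero' := by
    change nrm (0 : Module.End K (X → K)) = 0
    rw [← map_zero (phiR K 0)]
    change nrm (phi 0 0) = 0
    rw [nrm_phi, Matrix.rank_zero]
    simp
  add_le' := by
    rintro ⟨T, hT⟩ ⟨T', hT'⟩
    obtain ⟨n, x, y, rfl, rfl⟩ := common_level hT hT'
    change nrm (phi n x + phi n y) ≤ nrm (phi n x) + nrm (phi n y)
    rw [← phi_add, nrm_phi, nrm_phi, nrm_phi, ← add_div]
    gcongr
    exact_mod_cast rank_add_le' x y
  neg' := by
    rintro ⟨T, n, x, rfl⟩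
    change nrm (-phi n x) = nrm (phi n x)
    have : -phi n x = phi n (-x) := (map_neg (phiR K n) x).symm
    rw [this, nrm_phi, nrm_phi, rank_neg']
  eq_zero_of_map_eq_zero' := by
    rintro ⟨T, n, x, rfl⟩ h
    change nrm (phi n x) = 0 at h
    rw [nrm_phi, div_eq_zero_iff] at h
    rcases h with h | h
    · have h1 : x = 0 := rank_eq_zero' x (by exact_mod_cast h)
      apply Subtype.ext
      change phi n x = 0
      rw [h1]
      exact map_zero (phiR K n)
    · exact absurd h (by positivity)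

noncomputable instance : NormedAddCommGroup (US K) := (rankNorm K).toNormedAddCommGroup

theorem norm_def (T : US K) : ‖T‖ = nrm T.1 := rfl

theorem norm_mul_le_right (S T : US K) : ‖S * T‖ ≤ ‖T‖ := by
  obtain ⟨S, hS⟩ := S
  obtain ⟨T, hT⟩ := T
  obtain ⟨n, x, y, rfl, rfl⟩ := common_level hS hT
  change nrm (phi n x * phi n y) ≤ nrm (phi n y)
  rw [← phi_mul, nrm_phi, nrm_phi]
  gcongr
  exact Matrix.rank_mul_le_right _ _

theorem norm_mul_le_left (S T : US K) : ‖S * T‖ ≤ ‖S‖ := by
  obtain ⟨S, hS⟩ := S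
  obtain ⟨T, hT⟩ := T
  obtain ⟨n, x, y, rfl, rfl⟩ := common_level hS hT
  change nrm (phi n x * phi n y) ≤ nrm (phi n x)
  rw [← phi_mul, nrm_phi, nrm_phi]
  gcongr
  exact Matrix.rank_mul_le_left _ _

instance : ContinuousMul (US K) where
  continuous_mul := by
    rw [continuous_iff_continuousAt]
    rintro ⟨S, T⟩
    rw [Metric.continuousAt_iff']
    intro ε hε
    have h1 : ∀ᶠ p : US K × US K in 𝓝 (S, T), dist p.1 S < ε / 2 :=
      (Metric.continuousAt_iff'.1 continuous_fst.continuousAt) (ε / 2) (by linarith)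
    have h2 : ∀ᶠ p : US K × US K in 𝓝 (S, T), dist p.2 T < ε / 2 :=
      (Metric.continuousAt_iff'.1 continuous_snd.continuousAt) (ε / 2) (by linarith)
    filter_upwards [h1, h2] with p hp1 hp2
    rw [dist_eq_norm] at hp1 hp2 ⊢
    have h3 : p.1 * p.2 - S * T = (p.1 - S) * p.2 + S * (p.2 - T) := by noncomm_ring
    rw [h3]
    calc _ ≤ ‖(p.1 - S) * p.2‖ + ‖S * (p.2 - T)‖ := norm_add_le _ _
      _ ≤ ‖p.1 - S‖ + ‖p.2 - T‖ := add_le_add (norm_mul_le_left _ _) (norm_mul_le_right _ _)
      _ < ε := by linarith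

instance : IsTopologicalRing (US K) where

/-- `phi` into the union -/
noncomputable def phiU (n : ℕ) : Matrix (I n) (I n) K →+* US K :=
  (phiR K n).codRestrict (US K) fun a => ⟨n, a, rfl⟩

theorem dist_phiU (n : ℕ) (x y : Matrix (I n) (I n) K) :
    dist (phiU n x) (phiU n y) = ((x - y).rank : ℝ) / 2 ^ n := by
  rw [dist_eq_norm, ← map_sub]
  exact nrm_phi n (x - y)

end exist

end Pool.Agent.H361R3
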