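import Mathlib

set_option autoImplicit false

namespace Pool.Agent.H361R3

open Matrix

/-- index set with `2 ^ n` elements -/
abbrev I (n : ℕ) : Type := Fin n → Fin 2

/-- infinite sequences -/
abbrev X : Type := ℕ → Fin 2

def res (n : ℕ) (ω : X) : I n := fun i => ω i

def glue (n : ℕ) (η : I n) (ω : X) : X := fun i => if h : i < n then η ⟨i, h⟩ else ω i

theorem glue_lt {n : ℕ} (η : I n) (ω : X) {i : ℕ} (h : i < n) : glue n η ω i = η ⟨i, h⟩ := by
  simp [glue, h]

theorem glue_ge {n : ℕ} (η : I n) (ω : X) {i : ℕ} (h : n ≤ i) : glue n η ω i = ω i := by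
  simp [glue, not_lt.2 h]

theorem res_glue (n : ℕ) (η : I n) (ω : X) : res n (glue n η ω) = η := by
  funext i; exact glue_lt η ω i.2

theorem glue_res (n : ℕ) (ω : X) : glue n (res n ω) ω = ω := by
  funext i
  rcases lt_or_ge i n with h | h
  · rw [glue_lt _ _ h]; rfl
  · rw [glue_ge _ _ h]

theorem glue_glue (n : ℕ) (ζ η : I n) (ω : X) : glue n ζ (glue n η ω) = glue n ζ ω := by
  funext i
  rcases lt_or_ge i n with h | h
  · rw [glue_lt _ _ h, glue_lt _ _ h]
  · rw [glue_ge _ _ h, glue_ge _ _ h, glue_ge _ _ h]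

section field

variable {K : Type*} [Field K]

/-- a matrix of size `2 ^ n` acting on functions on sequences, through the first `n` coordinates -/
noncomputable def phi (n : ℕ) (a : Matrix (I n) (I n) K) : Module.End K (X → K) where
  toFun f := fun ω => ∑ η, a (res n ω) η * f (glue n η ω)
  map_add' f g := by
    funext ω
    simp only [Pi.add_apply, mul_add, Finset.sum_add_distrib]
  map_smul' r f := by
    funext ω
    simp only [Pi.smul_apply, smul_eq_mul, RingHom.id_apply, Finset.mul_sum]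
    exact Finset.sum_congr rfl fun _ _ => by ring

theorem phi_apply (n : ℕ) (a : Matrix (I n) (I n) K) (f : X → K) (ω : X) :
    phi n a f ω = ∑ η, a (res n ω) η * f (glue n η ω) := rfl

theorem phi_one (n : ℕ) : phi n (1 : Matrix (I n) (I n) K) = 1 := by
  ext f ω
  rw [phi_apply]
  simp only [Matrix.one_apply, ite_mul, one_mul, zero_mul, Finset.sum_ite_eq, Finset.mem_univ,
    if_true, glue_res]
  rfl

theorem phi_mul (n : ℕ) (a b : Matrix (I n) (I n) K) : phi n (a * b) = phi n a * phi n b := by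
  ext f ω
  rw [Module.End.mul_apply, phi_apply, phi_apply]
  simp only [phi_apply, res_glue, glue_glue, Matrix.mul_apply, Finset.sum_mul, Finset.mul_sum]
  rw [Finset.sum_comm]
  exact Finset.sum_congr rfl fun _ _ => Finset.sum_congr rfl fun _ _ => by ring

theorem phi_add (n : ℕ) (a b : Matrix (I n) (I n) K) : phi n (a + b) = phi n a + phi n b := by
  ext f ω
  simp only [phi_apply, Matrix.add_apply, add_mul, Finset.sum_add_distrib, LinearMap.add_apply,
    Pi.add_apply]

theorem phi_inj (n : ℕ) {a b : Matrix (I n) (I n) K} (h : phi n a = phi n b) : a = b := by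
  classical
  ext α β
  have h1 := congrFun (LinearMap.congr_fun h (fun ω => if res n ω = β then (1 : K) else 0))
    (glue n α 0)
  simp only [phi_apply, res_glue, glue_glue, mul_ite, mul_one, mul_zero, Finset.sum_ite_eq',
    Finset.mem_univ, if_true] at h1
  exact h1

/-- The doubling in terms of the index sets `I n`. -/
def up (n : ℕ) (a : Matrix (I n) (I n) K) : Matrix (I (n + 1)) (I (n + 1)) K :=
  Matrix.of fun α β => if α (Fin.last n) = β (Fin.last n) then
    a (fun i => α i.castSucc) (fun i => β i.castSucc) else 0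

theorem phi_up (n : ℕ) (a : Matrix (I n) (I n) K) : phi (n + 1) (up n a) = phi n a := by
  classical
  ext f ω
  rw [phi_apply, phi_apply]
  rw [← (Fin.snocEquiv (fun _ : Fin (n + 1) => Fin 2)).sum_comp, Fintype.sum_prod_type]
  simp only [Fin.snocEquiv_apply, up, Matrix.of_apply, Fin.snoc_last, Fin.snoc_castSucc]
  rw [Finset.sum_comm]
  refine Finset.sum_congr rfl fun η _ => ?_
  simp only [ite_mul, zero_mul]
  rw [Finset.sum_ite_eq Finset.univ (res (n + 1) ω (Fin.last n))]
  simp only [Finset.mem_univ, if_true]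
  congr 1
  congr 1
  funext i
  rcases lt_trichotomy i n with h | h | h
  · rw [glue_lt _ _ h, glue_lt _ _ (by omega : i < n + 1)]
    have : (⟨i, by omega⟩ : Fin (n + 1)) = Fin.castSucc ⟨i, h⟩ := rfl
    rw [this, Fin.snocEquiv_apply, Fin.snoc_castSucc]
  · subst h
    rw [glue_ge _ _ le_rfl, glue_lt _ _ (by omega : i < i + 1)]
    have : (⟨i, by omega⟩ : Fin (i + 1)) = Fin.last i := rfl
    rw [this, Fin.snocEquiv_apply, Fin.snoc_last]
    rfl
  · rw [glue_ge _ _ h.le, glue_ge _ _ (by omega)]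

/-- multiplication by a function -/
noncomputable def DD (g : X → K) : Module.End K (X → K) where
  toFun f := g * f
  map_add' f f' := mul_add _ _ _
  map_smul' r f := by
    funext ω
    simp only [Pi.mul_apply, Pi.smul_apply, smul_eq_mul, RingHom.id_apply]
    ring

theorem DD_apply (g f : X → K) (ω : X) : DD g f ω = g ω * f ω := rfl

theorem DD_mul (g g' : X → K) : DD (g * g') = DD g * DD g' := by
  ext f ω
  simp only [Module.End.mul_apply, DD_apply, Pi.mul_apply]
  ring

theorem DD_phi (m : ℕ) (g : X → K) (hg : ∀ ω ω', (∀ i < m, ω i = ω' i) → g ω = g ω') :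
    DD g = phi m (Matrix.diagonal fun α => g (glue m α 0)) := by
  classical
  ext f ω
  rw [DD_apply, phi_apply]
  simp only [Matrix.diagonal_apply, ite_mul, zero_mul, Finset.sum_ite_eq, Finset.mem_univ,
    if_true, glue_res]
  congr 1
  refine hg _ _ fun i hi => ?_
  rw [glue_lt _ _ hi]
  rfl

/-- permutation of the coordinates -/
noncomputable def TT (σ : Equiv.Perm ℕ) : Module.End K (X → K) where
  toFun f := fun ω => f (fun i => ω (σ i))
  map_add' _ _ := rfl
  map_smul' _ _ := rfl

theorem TT_apply (σ : Equiv.Perm ℕ) (f : X → K) (ω : X) :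
    (TT σ : Module.End K (X → K)) f ω = f (fun i => ω (σ i)) := rfl

theorem TT_mul (σ τ : Equiv.Perm ℕ) :
    (TT (σ * τ) : Module.End K (X → K)) = TT σ * TT τ := by
  ext f ω
  rfl

theorem TT_one : (TT 1 : Module.End K (X → K)) = 1 := by
  ext f ω
  rfl

theorem perm_lt {m : ℕ} {σ : Equiv.Perm ℕ} (h : ∀ i, m ≤ i → σ i = i) {i : ℕ} (hi : i < m) :
    σ i < m := by
  by_contra hc
  push Not at hc
  have h1 := h _ hc
  have h2 := σ.injective h1
  omega

theorem perm_ge {m : ℕ} {σ : Equiv.Perm ℕ} (h : ∀ i, i < m → σ i = i) {i : ℕ} (hi : m ≤ i) :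
    m ≤ σ i := by
  by_contra hc
  push Not at hc
  have h1 := h _ hc
  have h2 := σ.injective h1
  omega

theorem TT_phi (m : ℕ) (σ : Equiv.Perm ℕ) (h : ∀ i, m ≤ i → σ i = i) :
    ∃ a : Matrix (I m) (I m) K, phi m a = TT σ := by
  classical
  refine ⟨Matrix.of fun α η => if res m (fun i => glue m α 0 (σ i)) = η then 1 else 0, ?_⟩
  ext f ω
  rw [TT_apply, phi_apply]
  simp only [Matrix.of_apply, ite_mul, one_mul, zero_mul, Finset.sum_ite_eq, Finset.mem_univ,
    if_true]
  congr 1
  funext i
  rcases lt_or_ge i m with hi | hi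
  · rw [glue_lt _ _ hi]
    change glue m (res m ω) 0 (σ i) = ω (σ i)
    rw [glue_lt _ _ (perm_lt h hi)]
    rfl
  · rw [glue_ge _ _ hi, h i hi]

theorem phi_comm_DD (n : ℕ) (a : Matrix (I n) (I n) K) (g : X → K)
    (hg : ∀ ω ω', (∀ i, n ≤ i → ω i = ω' i) → g ω = g ω') :
    phi n a * DD g = DD g * phi n a := by
  ext f ω
  rw [Module.End.mul_apply, Module.End.mul_apply, DD_apply, phi_apply, phi_apply, Finset.mul_sum]
  refine Finset.sum_congr rfl fun η _ => ?_
  rw [DD_apply, hg (glue n η ω) ω (fun i hi => glue_ge _ _ hi)]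
  ring

theorem phi_comm_TT (n : ℕ) (a : Matrix (I n) (I n) K) (σ : Equiv.Perm ℕ)
    (h : ∀ i, i < n → σ i = i) : phi n a * TT σ = TT σ * phi n a := by
  ext f ω
  rw [Module.End.mul_apply, Module.End.mul_apply, TT_apply, phi_apply, phi_apply]
  have h1 : res n (fun i => ω (σ i)) = res n ω := by
    funext i
    change ω (σ i) = ω i
    rw [h _ i.2]
  rw [h1]
  refine Finset.sum_congr rfl fun η _ => ?_
  rw [TT_apply]
  congr 2
  funext i
  rcases lt_or_ge i n with hi | hi
  · rw [h i hi, glue_lt _ _ hi, glue_lt _ _ hi]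
  · rw [glue_ge _ _ hi, glue_ge _ _ (perm_ge h hi)]

theorem TT_comm_DD (σ : Equiv.Perm ℕ) (g : X → K) (h : ∀ ω, g (fun i => ω (σ i)) = g ω) :
    TT σ * DD g = DD g * TT σ := by
  ext f ω
  rw [Module.End.mul_apply, Module.End.mul_apply, TT_apply, DD_apply, DD_apply, TT_apply, h]

theorem TT_mul_DD (σ : Equiv.Perm ℕ) (g : X → K) :
    TT σ * DD g = DD (fun ω => g (fun i => ω (σ i))) * TT σ := by
  ext f ω
  rfl

end field

end Pool.Agent.H361R3
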