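import Pool.Agent.H361R3.Abs

set_option autoImplicit false

namespace Pool.Agent.H361R3

open Matrix Filter Topology

variable {K : Type*} [Field K] {M : Type*} [Ring M] [MetricSpace M] [IsTopologicalRing M]
  [CompleteSpace M] {j : ∀ n, Matrix (I n) (I n) K →+* M}

omit [IsTopologicalRing M] [CompleteSpace M] in
theorem IsData.dist_gg' (hj : IsData j) (p : ℕ → ℕ) (hp : Function.Injective p) (m q q' : ℕ) :
    dist (Ph j (DD (gg K p m q))) (Ph j (DD (gg K p m q'))) ≤ |(q' : ℝ) - q| / 2 ^ m := by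
  rcases le_total q q' with h | h
  · refine (hj.dist_gg p hp m q q' h).trans ?_
    gcongr
    exact le_abs_self _
  · rw [dist_comm, abs_sub_comm]
    refine (hj.dist_gg p hp m q' q h).trans ?_
    gcongr
    exact le_abs_self _

theorem floor_diff (a b : ℝ) : |(⌊b⌋₊ : ℝ) - ⌊a⌋₊| ≤ |b - a| + 1 := by
  have key : ∀ a b : ℝ, a ≤ b → |(⌊b⌋₊ : ℝ) - ⌊a⌋₊| ≤ |b - a| + 1 := by
    intro a b hab
    have h1 : (⌊a⌋₊ : ℝ) ≤ ⌊b⌋₊ := Nat.cast_le.2 (Nat.floor_mono hab)
    rw [abs_of_nonneg (by linarith), abs_of_nonneg (by linarith)]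
    rcases le_or_gt 0 b with hb | hb
    · have h2 := Nat.floor_le hb
      have h3 := Nat.lt_floor_add_one a
      linarith
    · rw [Nat.floor_of_nonpos hb.le]
      have : (0 : ℝ) ≤ ⌊a⌋₊ := Nat.cast_nonneg _
      push_cast
      linarith
  rcases le_total a b with h | h
  · exact key a b h
  · rw [abs_sub_comm, abs_sub_comm b a]
    exact key b a h

/-- the approximations to the path of idempotents -/
noncomputable def ee (j : ∀ n, Matrix (I n) (I n) K →+* M) (p : ℕ → ℕ) (t : ℝ) (m : ℕ) : M :=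
  Ph j (DD (gg K p m ⌊t * 2 ^ m⌋₊))

omit [IsTopologicalRing M] [CompleteSpace M] in
theorem IsData.dist_ee_succ (hj : IsData j) (p : ℕ → ℕ) (hp : Function.Injective p) (t : ℝ)
    (m : ℕ) : dist (ee j p t m) (ee j p t (m + 1)) ≤ 1 / 2 / 2 ^ m := by
  unfold ee
  rw [← gg_double]
  have h1 : 2 * ⌊t * 2 ^ m⌋₊ ≤ ⌊t * 2 ^ (m + 1)⌋₊ := by
    rcases le_or_gt t 0 with ht | ht
    · rw [Nat.floor_of_nonpos (mul_nonpos_of_nonpos_of_nonneg ht (by positivity))]
      simp
    · refine Nat.le_floor ?_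
      push_cast
      have := Nat.floor_le (a := t * 2 ^ m) (by positivity)
      rw [pow_succ]; linarith
  have h2 : (⌊t * 2 ^ (m + 1)⌋₊ : ℝ) ≤ 2 * ⌊t * 2 ^ m⌋₊ + 1 := by
    have h3 : ⌊t * 2 ^ (m + 1)⌋₊ < 2 * ⌊t * 2 ^ m⌋₊ + 2 := by
      rcases le_or_gt t 0 with ht | ht
      · rw [Nat.floor_of_nonpos (mul_nonpos_of_nonpos_of_nonneg ht (by positivity))]
        omega
      · rw [Nat.floor_lt (by positivity)]
        push_cast
        have := Nat.lt_floor_add_one (t * 2 ^ m)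
        rw [pow_succ]; linarith
    have h4 : ⌊t * 2 ^ (m + 1)⌋₊ ≤ 2 * ⌊t * 2 ^ m⌋₊ + 1 := by omega
    exact_mod_cast h4
  refine (hj.dist_gg p hp (m + 1) _ _ h1).trans ?_
  rw [div_div, ← pow_succ', div_le_div_iff_of_pos_right (by positivity)]
  push_cast
  linarith

theorem IsData.exists_path (hj : IsData j) (p : ℕ → ℕ) (hp : Function.Injective p) :
    ∃ e : ℝ → M, (∀ t, Tendsto (ee j p t) atTop (𝓝 (e t))) := by
  have : ∀ t, ∃ x, Tendsto (ee j p t) atTop (𝓝 x) := by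
    intro t
    exact cauchySeq_tendsto_of_complete
      (cauchySeq_of_le_geometric_two (C := 1) fun m => hj.dist_ee_succ p hp t m)
  choose e he using this
  exact ⟨e, he⟩

/-- the path of idempotents at the coordinates `p 0, p 1, ...` -/
noncomputable def eP (hj : IsData j) (p : ℕ → ℕ) (hp : Function.Injective p) : ℝ → M :=
  (hj.exists_path p hp).choose

theorem eP_tendsto (hj : IsData j) (p : ℕ → ℕ) (hp : Function.Injective p) (t : ℝ) :
    Tendsto (ee j p t) atTop (𝓝 (eP hj p hp t)) := (hj.exists_path p hp).choose_spec t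

theorem eP_dist (hj : IsData j) (p : ℕ → ℕ) (hp : Function.Injective p) (s t : ℝ) :
    dist (eP hj p hp s) (eP hj p hp t) ≤ |t - s| := by
  have h1 := (eP_tendsto hj p hp s).dist (eP_tendsto hj p hp t)
  have h2 : Tendsto (fun m : ℕ => |t - s| + (1 / 2 : ℝ) ^ m) atTop (𝓝 (|t - s| + 0)) :=
    tendsto_const_nhds.add (tendsto_pow_atTop_nhds_zero_of_lt_one (by norm_num) (by norm_num))
  rw [add_zero] at h2
  refine le_of_tendsto_of_tendsto h1 h2 (Eventually.of_forall fun m => ?_)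
  refine (hj.dist_gg' p hp m _ _).trans ?_
  have h3 := floor_diff (s * 2 ^ m) (t * 2 ^ m)
  have h4 : |t * 2 ^ m - s * 2 ^ m| = |t - s| * 2 ^ m := by
    rw [← sub_mul, abs_mul, abs_of_pos (by positivity : (0 : ℝ) < 2 ^ m)]
  rw [h4] at h3
  rw [div_le_iff₀ (by positivity), add_mul, ← mul_pow]
  norm_num
  exact h3

theorem eP_continuous (hj : IsData j) (p : ℕ → ℕ) (hp : Function.Injective p) :
    Continuous (eP hj p hp) := by
  refine LipschitzWith.continuous (K := 1) (LipschitzWith.of_dist_le_mul fun s t => ?_)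
  rw [NNReal.coe_one, one_mul, dist_comm s t, Real.dist_eq]
  exact eP_dist hj p hp s t

theorem eP_nonpos (hj : IsData j) (p : ℕ → ℕ) (hp : Function.Injective p) {t : ℝ} (ht : t ≤ 0) :
    eP hj p hp t = 0 := by
  refine tendsto_nhds_unique (eP_tendsto hj p hp t) ?_
  have : ee j p t = fun _ => (0 : M) := by
    funext m
    unfold ee
    rw [Nat.floor_of_nonpos (mul_nonpos_of_nonpos_of_nonneg ht (by positivity)), gg_zero]
    have h0 : DD (0 : X → K) = phi 0 0 := by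
      ext f ω
      simp [DD_apply, phi_apply]
    rw [h0, hj.Ph_phi, map_zero]
  rw [this]
  exact tendsto_const_nhds

theorem eP_one_le (hj : IsData j) (p : ℕ → ℕ) (hp : Function.Injective p) {t : ℝ} (ht : 1 ≤ t) :
    eP hj p hp t = 1 := by
  refine tendsto_nhds_unique (eP_tendsto hj p hp t) ?_
  have : ee j p t = fun _ => (1 : M) := by
    funext m
    unfold ee
    have h1 : 2 ^ m ≤ ⌊t * 2 ^ m⌋₊ := by
      refine Nat.le_floor ?_
      push_cast
      have : (0 : ℝ) < 2 ^ m := by positivity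
      nlinarith
    rw [gg_full _ _ _ h1]
    have h0 : DD (1 : X → K) = 1 := by
      ext f ω
      simp [DD_apply]
    rw [h0, hj.Ph_one]
  rw [this]
  exact tendsto_const_nhds

theorem eP_idem (hj : IsData j) (p : ℕ → ℕ) (hp : Function.Injective p) (t : ℝ) :
    eP hj p hp t * eP hj p hp t = eP hj p hp t := by
  have h1 := (eP_tendsto hj p hp t).mul (eP_tendsto hj p hp t)
  refine tendsto_nhds_unique h1 ((eP_tendsto hj p hp t).congr fun m => ?_)
  unfold ee
  rw [← hj.Ph_mul (Loc_gg _ _ _) (Loc_gg _ _ _), ← DD_mul, gg_sq]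

theorem eP_comm (hj : IsData j) (p : ℕ → ℕ) (hp : Function.Injective p)
    (T : Module.End K (X → K)) (hT : Loc T)
    (h : ∀ m q, T * DD (gg K p m q) = DD (gg K p m q) * T) (t : ℝ) :
    Ph j T * eP hj p hp t = eP hj p hp t * Ph j T := by
  have h1 := (tendsto_const_nhds (x := Ph j T) (f := atTop)).mul (eP_tendsto hj p hp t)
  have h2 := (eP_tendsto hj p hp t).mul (tendsto_const_nhds (x := Ph j T) (f := atTop))
  refine tendsto_nhds_unique h1 (h2.congr fun m => ?_)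
  unfold ee
  rw [← hj.Ph_mul (Loc_gg _ _ _) hT, ← hj.Ph_mul hT (Loc_gg _ _ _), h]

/-! ### permutations -/

theorem perm_apply_inv (π : Equiv.Perm ℕ) (x : ℕ) : π (π⁻¹ x) = x := π.apply_symm_apply x

/-- finite support -/
def FS (σ : Equiv.Perm ℕ) : Prop := ∃ N, ∀ i, N ≤ i → σ i = i

theorem FS.inv {σ : Equiv.Perm ℕ} (h : FS σ) : FS σ⁻¹ := by
  obtain ⟨N, hN⟩ := h
  exact ⟨N, fun i hi => by rw [Equiv.Perm.inv_eq_iff_eq, hN i hi]⟩

theorem FS.mul {σ τ : Equiv.Perm ℕ} (h : FS σ) (h' : FS τ) : FS (σ * τ) := by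
  obtain ⟨N, hN⟩ := h
  obtain ⟨N', hN'⟩ := h'
  exact ⟨max N N', fun i hi => by
    rw [Equiv.Perm.mul_apply, hN' i ((le_max_right _ _).trans hi), hN i ((le_max_left _ _).trans hi)]⟩

theorem FS.swap (a b : ℕ) : FS (Equiv.swap a b) :=
  ⟨max a b + 1, fun i hi => Equiv.swap_apply_of_ne_of_ne
    (by have := le_max_left a b; omega) (by have := le_max_right a b; omega)⟩

theorem FS.loc {σ : Equiv.Perm ℕ} (h : FS σ) : Loc (TT σ : Module.End K (X → K)) := by
  obtain ⟨N, hN⟩ := h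
  exact ⟨N, TT_phi N σ hN⟩

/-- the permutations `π_k` moving `i` to `2 i` for `i < k` -/
def pp : ℕ → Equiv.Perm ℕ
  | 0 => 1
  | (k + 1) => Equiv.swap (pp k k) (2 * k) * pp k

theorem pp_FS (k : ℕ) : FS (pp k) := by
  induction k with
  | zero => exact ⟨0, fun i _ => rfl⟩
  | succ k ih => exact (FS.swap _ _).mul ih

theorem pp_lt (k : ℕ) : ∀ i, i < k → pp k i = 2 * i := by
  induction k with
  | zero => intro i hi; omega
  | succ k ih =>
    intro i hi
    rw [pp, Equiv.Perm.mul_apply]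
    rcases Nat.lt_succ_iff_lt_or_eq.1 hi with h | rfl
    · rw [ih i h, Equiv.swap_apply_of_ne_of_ne]
      · rw [← ih i h]
        intro hc
        have := (pp k).injective hc
        omega
      · omega
    · rw [Equiv.swap_apply_left]

/-- a bound beyond which `π_k` is the identity, as is the swap, and which is at least `k` -/
theorem exists_bound (k : ℕ) : ∃ N, k ≤ N ∧ (∀ i, N ≤ i → pp k i = i) ∧
    (∀ i, N ≤ i → Equiv.swap (pp k k) (2 * k) i = i) := by
  obtain ⟨N, hN⟩ := pp_FS k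
  obtain ⟨N', hN'⟩ := FS.swap (pp k k) (2 * k)
  refine ⟨max (max N N') k, le_max_right _ _, fun i hi => hN i ?_, fun i hi => hN' i ?_⟩
  · exact (le_max_left N N').trans ((le_max_left _ _).trans hi)
  · exact (le_max_right N N').trans ((le_max_left _ _).trans hi)

noncomputable def bd (k : ℕ) : ℕ := (exists_bound k).choose

theorem bd_spec (k : ℕ) : k ≤ bd k ∧ (∀ i, bd k ≤ i → pp k i = i) ∧
    (∀ i, bd k ≤ i → Equiv.swap (pp k k) (2 * k) i = i) := (exists_bound k).choose_spec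

noncomputable def sh (k : ℕ) : ℕ → ℕ := fun i => i + bd k

theorem sh_inj (k : ℕ) : Function.Injective (sh k) := fun _ _ h => Nat.add_right_cancel h

/-- the unit given by a permutation -/
noncomputable def UU (hj : IsData j) (σ : Equiv.Perm ℕ) (h : FS σ) : Mˣ where
  val := Ph j (TT σ)
  inv := Ph j (TT σ⁻¹)
  val_inv := by rw [← hj.Ph_mul h.loc h.inv.loc, ← TT_mul, mul_inv_cancel, TT_one, hj.Ph_one]
  inv_val := by rw [← hj.Ph_mul h.inv.loc h.loc, ← TT_mul, inv_mul_cancel, TT_one, hj.Ph_one]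

theorem TT_gg (σ : Equiv.Perm ℕ) (p : ℕ → ℕ) (h : ∀ i, σ (p i) = p i) (m q : ℕ) :
    TT σ * DD (gg K p m q) = DD (gg K p m q) * TT σ := by
  refine TT_comm_DD σ _ fun ω => gg_congr p m q fun i _ => ?_
  simp only [h]

theorem sw_comm (hj : IsData j) (k : ℕ) (t : ℝ) :
    (UU hj _ (FS.swap (pp k k) (2 * k)) : M) * eP hj (sh k) (sh_inj k) t =
      eP hj (sh k) (sh_inj k) t * (UU hj _ (FS.swap (pp k k) (2 * k)) : M) := by
  refine eP_comm hj _ _ _ (FS.swap _ _).loc (fun m q => TT_gg _ _ (fun i => ?_) m q) t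
  exact (bd_spec k).2.2 _ (Nat.le_add_left _ _)

theorem path_unit_mul {N : Type*} [Ring N] (E : N) (S : Nˣ) (hE : E * E = E)
    (hSE : (S : N) * E = E * S) :
    ((1 - E) + (S : N) * E) * ((1 - E) + ((S⁻¹ : Nˣ) : N) * E) = 1 := by
  have h1 : (1 - E) * E = 0 := by rw [sub_mul, one_mul, hE, sub_self]
  have h2 : E * (1 - E) = 0 := by rw [mul_sub, mul_one, hE, sub_self]
  have h3 : (1 - E) * (1 - E) = 1 - E := by rw [mul_sub, mul_one, h1, sub_zero]
  have h4 : E * ((S⁻¹ : Nˣ) : N) = ((S⁻¹ : Nˣ) : N) * E := by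
    rw [Units.eq_inv_mul_iff_mul_eq, ← mul_assoc, hSE, mul_assoc, Units.mul_inv, mul_one]
  have h5 : (1 - E) * ((S⁻¹ : Nˣ) : N) = ((S⁻¹ : Nˣ) : N) * (1 - E) := by
    rw [sub_mul, mul_sub, one_mul, mul_one, h4]
  calc ((1 - E) + (S : N) * E) * ((1 - E) + ((S⁻¹ : Nˣ) : N) * E)
      = (1 - E) * (1 - E) + ((1 - E) * ((S⁻¹ : Nˣ) : N)) * E + (S : N) * (E * (1 - E))
        + (S : N) * (E * ((S⁻¹ : Nˣ) : N)) * E := by noncomm_ring
    _ = (1 - E) + (((S⁻¹ : Nˣ) : N) * (1 - E)) * E + (S : N) * 0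
        + (S : N) * (((S⁻¹ : Nˣ) : N) * E) * E := by rw [h3, h5, h2, h4]
    _ = (1 - E) + ((S⁻¹ : Nˣ) : N) * ((1 - E) * E)
        + ((S : N) * ((S⁻¹ : Nˣ) : N)) * (E * E) := by noncomm_ring
    _ = 1 := by rw [h1, hE, Units.mul_inv]; noncomm_ring

theorem inv_comm {N : Type*} [Ring N] (E : N) (S : Nˣ) (hSE : (S : N) * E = E * S) :
    ((S⁻¹ : Nˣ) : N) * E = E * ((S⁻¹ : Nˣ) : N) := by
  rw [Units.inv_mul_eq_iff_eq_mul, ← mul_assoc, hSE, mul_assoc, Units.mul_inv, mul_one]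

/-- the path from `1` to a unit `S`, along a path of idempotents commuting with `S` -/
def pathUnit {N : Type*} [Ring N] (E : N) (S : Nˣ) (hE : E * E = E)
    (hSE : (S : N) * E = E * S) : Nˣ where
  val := (1 - E) + (S : N) * E
  inv := (1 - E) + ((S⁻¹ : Nˣ) : N) * E
  val_inv := path_unit_mul E S hE hSE
  inv_val := by
    have := path_unit_mul E S⁻¹ hE (inv_comm E S hSE)
    rwa [inv_inv] at this

noncomputable def cc (hj : IsData j) (k : ℕ) (t : ℝ) : Mˣ :=
  pathUnit (eP hj (sh k) (sh_inj k) t) (UU hj _ (FS.swap (pp k k) (2 * k)))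
    (eP_idem hj _ _ t) (sw_comm hj k t)

theorem cc_val (hj : IsData j) (k : ℕ) (t : ℝ) : (cc hj k t : M) =
    (1 - eP hj (sh k) (sh_inj k) t) +
      (UU hj _ (FS.swap (pp k k) (2 * k)) : M) * eP hj (sh k) (sh_inj k) t := rfl

theorem cc_inv (hj : IsData j) (k : ℕ) (t : ℝ) : (((cc hj k t)⁻¹ : Mˣ) : M) =
    (1 - eP hj (sh k) (sh_inj k) t) +
      (((UU hj _ (FS.swap (pp k k) (2 * k)))⁻¹ : Mˣ) : M) * eP hj (sh k) (sh_inj k) t := rfl

theorem cc_nonpos (hj : IsData j) (k : ℕ) (t : ℝ) (ht : t ≤ 0) : cc hj k t = 1 := by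
  apply Units.ext
  rw [cc_val, eP_nonpos hj _ _ ht]
  simp

theorem cc_one_le (hj : IsData j) (k : ℕ) (t : ℝ) (ht : 1 ≤ t) :
    cc hj k t = UU hj _ (FS.swap (pp k k) (2 * k)) := by
  apply Units.ext
  rw [cc_val, eP_one_le hj _ _ ht]
  simp

/-- the operator of level `n`, conjugated by `π_k` -/
theorem cj_eq (hj : IsData j) (k n : ℕ) (a : Matrix (I n) (I n) K) :
    cj (UU hj _ (pp_FS k)) (j n a) = Ph j (TT (pp k) * phi n a * TT (pp k)⁻¹) := by
  have hl : Loc (phi n a) := ⟨n, a, rfl⟩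
  rw [hj.Ph_mul (hj.Loc_mul (pp_FS k).loc hl) (pp_FS k).inv.loc, hj.Ph_mul (pp_FS k).loc hl,
    hj.Ph_phi]
  rfl

theorem Loc_cj (hj : IsData j) (k n : ℕ) (a : Matrix (I n) (I n) K) :
    Loc (TT (pp k) * phi n a * TT (pp k)⁻¹) :=
  hj.Loc_mul (hj.Loc_mul (pp_FS k).loc ⟨n, a, rfl⟩) (pp_FS k).inv.loc

theorem sw_comm_cj (k n : ℕ) (h : n ≤ k) (a : Matrix (I n) (I n) K) :
    TT (Equiv.swap (pp k k) (2 * k)) * (TT (pp k) * phi n a * TT (pp k)⁻¹) =
      (TT (pp k) * phi n a * TT (pp k)⁻¹) * TT (Equiv.swap (pp k k) (2 * k)) := by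
  set π := pp k with hπ
  set τ := Equiv.swap k (π⁻¹ (2 * k)) with hτ
  have h1 : Equiv.swap (π k) (2 * k) = π * τ * π⁻¹ := by
    rw [hτ, Equiv.mul_swap_eq_swap_mul, mul_assoc, mul_inv_cancel, mul_one,
      perm_apply_inv]
  have h2 : ∀ i, i < n → τ i = i := by
    intro i hi
    refine Equiv.swap_apply_of_ne_of_ne (by omega) ?_
    intro hc
    have h3 : π i = 2 * k := by rw [hc, perm_apply_inv]
    rw [hπ, pp_lt k i (by omega)] at h3
    omega
  have h3 := phi_comm_TT n a τ h2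
  have h4 : TT (K := K) π⁻¹ * TT π = 1 := by rw [← TT_mul, inv_mul_cancel, TT_one]
  rw [h1, TT_mul, TT_mul]
  calc TT π * TT τ * TT π⁻¹ * (TT π * phi n a * TT π⁻¹)
      = TT π * TT τ * (TT π⁻¹ * TT π) * phi n a * TT π⁻¹ := by simp only [mul_assoc]
    _ = TT π * (TT τ * phi n a) * TT π⁻¹ := by rw [h4, mul_one]; simp only [mul_assoc]
    _ = TT π * (phi n a * TT τ) * TT π⁻¹ := by rw [h3]
    _ = TT π * phi n a * (TT π⁻¹ * TT π) * TT τ * TT π⁻¹ := by
        rw [h4, mul_one]; simp only [mul_assoc]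
    _ = (TT π * phi n a * TT π⁻¹) * (TT π * TT τ * TT π⁻¹) := by simp only [mul_assoc]

theorem eP_comm_cj (hj : IsData j) (k n : ℕ) (h : n ≤ k) (a : Matrix (I n) (I n) K) (t : ℝ) :
    Ph j (TT (pp k) * phi n a * TT (pp k)⁻¹) * eP hj (sh k) (sh_inj k) t =
      eP hj (sh k) (sh_inj k) t * Ph j (TT (pp k) * phi n a * TT (pp k)⁻¹) := by
  refine eP_comm hj _ _ _ (Loc_cj hj k n a) (fun m q => ?_) t
  have h1 : TT (pp k) * DD (gg K (sh k) m q) = DD (gg K (sh k) m q) * TT (pp k) :=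
    TT_gg _ _ (fun i => (bd_spec k).2.1 _ (Nat.le_add_left _ _)) m q
  have h2 : TT (pp k)⁻¹ * DD (gg K (sh k) m q) = DD (gg K (sh k) m q) * TT (pp k)⁻¹ :=
    TT_gg _ _ (fun i => by
      rw [Equiv.Perm.inv_eq_iff_eq]
      exact ((bd_spec k).2.1 _ (Nat.le_add_left _ _)).symm) m q
  have h3 : phi n a * DD (gg K (sh k) m q) = DD (gg K (sh k) m q) * phi n a :=
    phi_comm_DD n a _ fun ω ω' hω => gg_congr _ m q fun i _ => hω _
      (h.trans ((bd_spec k).1.trans (Nat.le_add_left _ _)))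
  rw [mul_assoc, h2, ← mul_assoc, mul_assoc (TT (pp k)), h3, ← mul_assoc, h1]
  simp only [mul_assoc]

def odd : ℕ → ℕ := fun i => 2 * i + 1

theorem odd_inj : Function.Injective odd := fun a b h => by unfold odd at h; omega

theorem eP_odd_comm (hj : IsData j) (n : ℕ) (a : Matrix (I n) (I n) K) (t : ℝ) :
    Ph j (TT (pp n) * phi n a * TT (pp n)⁻¹) * eP hj odd odd_inj t =
      eP hj odd odd_inj t * Ph j (TT (pp n) * phi n a * TT (pp n)⁻¹) := by
  refine eP_comm hj _ _ _ (Loc_cj hj n n a) (fun m q => ?_) t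
  set π := pp n with hπ
  let g : X → K := gg K odd m q
  let g' : X → K := fun ω => g (fun i => ω (π⁻¹ i))
  have h1 : TT π⁻¹ * DD g = DD g' * TT π⁻¹ := TT_mul_DD _ _
  have h2 : phi n a * DD g' = DD g' * phi n a := by
    refine phi_comm_DD n a _ fun ω ω' hω => gg_congr _ m q fun i _ => hω _ ?_
    by_contra hc
    push Not at hc
    have h3 : π (π⁻¹ (odd i)) = odd i := perm_apply_inv _ _
    rw [hπ, pp_lt n _ hc] at h3
    unfold odd at h3
    omega
  have h3 : TT π * DD g' = DD g * TT π := by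
    rw [TT_mul_DD]
    congr 2
    funext ω
    simp only [g']
    congr 1
    funext i
    rw [perm_apply_inv]
  change TT π * phi n a * TT π⁻¹ * DD g = DD g * (TT π * phi n a * TT π⁻¹)
  rw [mul_assoc, h1, ← mul_assoc, mul_assoc (TT π), h2, ← mul_assoc, h3]
  simp only [mul_assoc]

/-- The unit group is contractible. -/
theorem contractible_of_isData (hj : IsData j) : ContractibleSpace {x : M // IsUnit x} := by
  refine contractible_of_data (fun x y z => hj.hL x y z) (fun x y z => hj.hR x y z)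
    (fun n => Set.range (j n)) (fun x ε hε => ?_) (cc hj) ?_ ?_ (cc_nonpos hj)
    (fun k t ht => ?_) (fun k => UU hj _ (pp_FS k)) ?_ ?_ ?_
    (eP hj odd odd_inj) (eP_continuous hj _ _) (eP_nonpos hj _ _ le_rfl)
    (eP_one_le hj _ _ le_rfl) (eP_idem hj _ _) ?_
  · obtain ⟨n, a, h⟩ := hj.dense x ε hε
    exact ⟨n, j n a, ⟨a, rfl⟩, h⟩
  · intro k
    simp only [cc_val]
    exact (continuous_const.sub (eP_continuous hj _ _)).add
      (continuous_const.mul (eP_continuous hj _ _))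
  · intro k
    simp only [cc_inv]
    exact (continuous_const.sub (eP_continuous hj _ _)).add
      (continuous_const.mul (eP_continuous hj _ _))
  · rw [cc_one_le hj k t ht, cc_one_le hj k 1 le_rfl]
  · apply Units.ext
    change Ph j (TT (pp 0)) = 1
    rw [pp, TT_one, hj.Ph_one]
  · intro k
    apply Units.ext
    rw [cc_one_le hj k 1 le_rfl, Units.val_mul]
    change Ph j (TT (pp (k + 1))) = Ph j (TT (Equiv.swap (pp k k) (2 * k))) * Ph j (TT (pp k))
    rw [← hj.Ph_mul (FS.swap _ _).loc (pp_FS k).loc, ← TT_mul, pp]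
  · rintro n _ ⟨a, rfl⟩ k hk t
    rw [cj_eq, cc_val]
    have h1 := eP_comm_cj hj k n hk a t
    have h2 : (UU hj _ (FS.swap (pp k k) (2 * k)) : M) *
        Ph j (TT (pp k) * phi n a * TT (pp k)⁻¹) =
        Ph j (TT (pp k) * phi n a * TT (pp k)⁻¹) *
          (UU hj _ (FS.swap (pp k k) (2 * k)) : M) := by
      change Ph j (TT (Equiv.swap (pp k k) (2 * k))) * _ = _ * Ph j (TT (Equiv.swap (pp k k) (2 * k)))
      rw [← hj.Ph_mul (FS.swap _ _).loc (Loc_cj hj k n a),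
        ← hj.Ph_mul (Loc_cj hj k n a) (FS.swap _ _).loc, sw_comm_cj k n hk a]
    set Y := Ph j (TT (pp k) * phi n a * TT (pp k)⁻¹)
    set E := eP hj (sh k) (sh_inj k) t
    set S := (UU hj _ (FS.swap (pp k k) (2 * k)) : M)
    calc (1 - E + S * E) * Y = Y - E * Y + S * (E * Y) := by noncomm_ring
      _ = Y - Y * E + (S * Y) * E := by rw [← h1]; noncomm_ring
      _ = Y * (1 - E + S * E) := by rw [h2]; noncomm_ring
  · rintro n _ ⟨a, rfl⟩ t
    rw [cj_eq]
    exact (eP_odd_comm hj n a t).symm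

end Pool.Agent.H361R3
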